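import Mathlib
import Pool.Agent.J4.H51.DS.Main
import Pool.Agent.TH8.TEN.Special

/-!
MP_1209e6_ag, Q1, the implication from (ii) to (i): a projective variety with a Zariski-dense entire
curve given by linear difference equations with polynomial coefficients, of exponential type in the
right half-plane and of type zero in the imaginary direction, is special, and it has no holomorphic
tensor differentials.
-/

set_option autoImplicit false

namespace Pool.Agent.Results.MP_1209e6_ag.DifferenceSpecial

open MvPolynomial Set
open Pool.Agent.TH143 Pool.Agent.TH143.GT Pool.Agent.TH8.TEN Pool.Agent.J4.H51.DS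

/-- Let `X` be the projective variety with the ideal `p`, the function field `K` and the generic
point `y`. Let `f` be an entire curve in `X`, Zariski-dense in `X` and given by entire functions
`g` such that

* `g` satisfies a nontrivial linear difference equation `∑ a_k (z) g (z + k) = 0` with polynomial
  coefficients (`DHol`);
* there is `A` such that for each `ε > 0` there is `C` with
  `‖g z‖ ≤ exp (C + A * Re z + ε * |Im z|)` for `Re z ≥ 0` (`Tame`); by `tame_of_type_zero` this
  holds for all entire functions of exponential type zero.

(1) All tensor differentials of positive degree on the smooth projective models of `X` vanish.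

(2) No subsheaf of rank one of a sheaf of `r`-forms, `r > 0`, has a positive power with a nonzero
section.

(3) `X` is special in the sense of Campana. -/
theorem result {n : ℕ} (p : Ideal (MvPolynomial (Fin (n + 1)) ℂ)) (K : Type) [Field K]
    [Algebra ℂ K] (w : ℕ) (y : Fin (n + 1) → K) (hy : FunField p 1 K w y)
    (f : ℂ → Fin (n + 1) → ℂ) (hf : ∀ j, Differentiable ℂ (fun z => f z j))
    (hX : ∀ z, ∀ H ∈ p, eval (f z) H = 0) (hD : ∀ j, DHol (fun z => f z j))
    (hT : ∀ j, Tame (fun z => f z j)) (hd : ZDense p f univ) :
    (∀ r : ℕ, 0 < r → ∀ θ : MultilinearMap K (fun _ : Fin r => Derivation ℂ K K) K,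
      HolTensor w θ → θ = 0) ∧
    (∀ r : ℕ, 0 < r → ∀ ω : Derivation ℂ K K [⋀^Fin r]→ₗ[K] K, ω ≠ 0 →
      ∀ m : ℕ, 0 < m → ∀ g : K, PowSec w ω m g → g = 0) ∧
    Special K w := by
  have h1 : ∀ r : ℕ, 0 < r → ∀ θ : MultilinearMap K (fun _ : Fin r => Derivation ℂ K K) K,
      HolTensor w θ → θ = 0 := fun r hr θ hθ =>
    tensor_vanish_d (hy.genPt (fun z _ => hX z) hd) hf hD hT hr hθ
  exact ⟨h1, fun r hr ω hω m hm g hg => powSec_zero h1 hr hω hm hg, special_of_tensor h1⟩

end Pool.Agent.Results.MP_1209e6_ag.DifferenceSpecial
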