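import Pool.Agent.J4.H14.RF.Hub
import Pool.Agent.J4.H14.RF.Spec

/-!
# Entire curves in fibrations whose fibres contain many curves of genus at most one

MP_1209e6_ag, Q1. Let `X → B` be a dominant rational map of complex projective varieties of any
dimensions, `F ⊆ K` the function fields of `B` and `X`. Its generic fibre is birational to a
hypersurface `H = 0` of affine space over `F`. Suppose that through the generic point `x` of this
hypersurface there pass curves of finitely many families, the curves of each family being plane
cubics, or double covers of a line with at most four branch points, which depend rationally on `x`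
(all over the field `F`), and that the tangent vector fields of these families generate the tangent
space at `x` under Lie brackets (`ManyCurves H x`). So the fibres may be, for instance, Calabi-Yau
hypersurfaces of degree `(2, ..., 2; 3, ..., 3)` in products of projective lines and planes, or double
covers of products of lines branched along divisors of degree `(4, ..., 4)`. The theorem:

* (`lifting`) There is a proper closed subset `G = 0` of `X` such that `X` is Brody-special as soon as
  it contains *some* entire curve, not contained in `G = 0`, whose image in `B` is Zariski dense. So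
  `X` is Brody-special if and only if some Zariski dense entire curve of `B` lifts to `X`, outside
  `G = 0`.
* (`points`) If a Brody-special variety `B'` has a rational map to `X` over a dominant rational map
  `B' → B`, whose generic point `r` is a smooth point of the fibre where the families generate the
  tangent space, then `X`, and every projective variety dominated by `X`, is Brody-special.
* (`sections`) If there is such a rational section `r` of `X → B`, then for every variety `X'` between
  `X` and `B` (that is, `X → X' → B`): `X'` is Brody-special if and only if `B` is; and if the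
  implication from special to Brody-special in Q1 holds for `B`, then it holds for `X'`.
* (`criterion`) If for some coordinate `x_q₀` all the plane curves on the hypersurface on which only
  `x_q₀` and one other coordinate vary are of genus at most one, then the hypothesis holds at all
  points where `∂H/∂x_q₀ ≠ 0`.

If `B` is a point, this is the hand-in `GenusOneFamilies` of the starting repository, whose proof is
carried over here to function fields, as follows. An entire curve in `B` with dense image is an
embedding of `F` in the field `Mer` of meromorphic functions on `ℂ`. The elliptic curves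
`y² = x³ + a x + b` over `Mer` have points which are transcendental over any given finitely generated
subfield of `Mer`, in particular over the extensions of finite transcendence degree of `F`. Consider
the points of `H = 0` over `Mer` which specialise to the given point over `Mer`, and take one of
maximal transcendence degree over `F`; its ideal in `F[x]` is stable under the vector fields of the
families, so it is a generic point of `H = 0`, and `K` embeds in `Mer`.

Conventions. A projective variety over `ℂ` is given by its function field `K` and its generic point
`z` in homogeneous coordinates (`IsGenericPoint z`); a form `Q` vanishes on it if and only if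
`val z Q = Q(z)` is zero, and `VarPts ℂ z` are its complex points. `BrodySpecial ∅ z`
(`Pool/Agent/W602/GT/BroDefs.lean`): there are entire functions without common zeros which define a
holomorphic map to the variety with Zariski dense image. `Special ℂ K w (fun _ => False)`
(`Pool/Agent/W602/GT/SpecDefs.lean`): the smooth projective models of `K`, of dimension `w`, have no
Bogomolov sheaves. A dominant rational map is an inclusion of function fields. `CurveFamily` and
`GenusOnePair` are defined in `Pool/Agent/J4/H14/RF/Defs.lean`, `GeneratingAt` in `Seed.lean`,
`ManyCurves` in `Fib.lean`.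
-/

set_option autoImplicit false

open MvPolynomial Pool.Agent.W602.GT Pool.Agent.J4.H14.RF

namespace Pool.Agent.Results.MP_1209e6_ag.FibrationsByCurvesOfGenusOne

/-- `z` is the generic point, in homogeneous coordinates, of a projective variety over `ℂ` with
function field `K`. -/
def IsGenericPoint {K : Type} [Field K] [Algebra ℂ K] {n : ℕ} (z : Fin (n + 1) → K) : Prop :=
  z ≠ 0 ∧ coords ℂ z = ⊤

/-- The generic fibre of a rational map from a variety with function field `K` to a variety with
function field `F` is birational to the hypersurface `H = 0` of affine space over `F`, with the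
generic point `x`: the point `x` generates `K` over `F`, and satisfies exactly the equations which are
divisible by the irreducible polynomial `H`. -/
structure GenericFibre {F K : Type} [Field F] [Field K] [Algebra F K] {N : ℕ}
    (H : MvPolynomial (Fin N) F) (x : Fin N → K) : Prop where
  irreducible : Irreducible H
  generic : ∀ Q : MvPolynomial (Fin N) F, aeval x Q = 0 ↔ H ∣ Q
  generates : IntermediateField.adjoin F (Set.range x) = ⊤

/-- **Fibrations whose fibres contain many curves of genus at most one.** -/
theorem result {F K : Type} [Field F] [Field K] [Algebra ℂ F] [Algebra ℂ K] [Algebra F K]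
    [IsScalarTower ℂ F K] {M n N : ℕ}
    -- the varieties `B` and `X`
    (y : Fin (M + 1) → F) (hy : IsGenericPoint y) (z : Fin (n + 1) → K) (hz : IsGenericPoint z)
    -- the generic fibre
    (H : MvPolynomial (Fin N) F) (x : Fin N → K) (hx : GenericFibre H x) :
    -- `lifting`: let the rational map from `X` to `B` be given by the forms `A` of degree `e`
    (ManyCurves H x → ∀ (A : Fin (M + 1) → MvPolynomial (Fin (n + 1)) ℂ) (e : ℕ) (t : K),
      (∀ j, (A j).IsHomogeneous e) → t ≠ 0 → (∀ j, val z (A j) = t * algebraMap F K (y j)) →
      ∃ G : MvPolynomial (Fin (n + 1)) ℂ, IsForm G ∧ val z G ≠ 0 ∧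
        (BrodySpecial ∅ z ↔ ∃ f : ℂ → Fin (n + 1) → ℂ, Differentiable ℂ f ∧
          (∀ w, f w ∈ VarPts ℂ z) ∧ (∃ w, val (f w) G ≠ 0) ∧
          ∀ Q : MvPolynomial (Fin (M + 1)) ℂ, IsForm Q →
            (∀ w, val (fun j => val (f w) (A j)) Q = 0) → val y Q = 0)) ∧
    -- `points`
    (∀ (L : Type) [Field L] [Algebra ℂ L] [Algebra F L] [IsScalarTower ℂ F L] (M' : ℕ)
      (y' : Fin (M' + 1) → L), IsGenericPoint y' → BrodySpecial ∅ y' →
      ∀ r : Fin N → L, aeval r H = 0 → ManyCurves H r →
      ∀ (E : Type) [Field E] [Algebra ℂ E] (_ : E →ₐ[ℂ] K) (n' : ℕ) (z' : Fin (n' + 1) → E),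
        IsGenericPoint z' → BrodySpecial ∅ z') ∧
    -- `sections`
    (∀ r : Fin N → F, aeval r H = 0 → ManyCurves H r →
      ∀ (E : Type) [Field E] [Algebra ℂ E] [Algebra F E] [IsScalarTower ℂ F E] (_ : E →ₐ[F] K)
        (n' : ℕ) (z' : Fin (n' + 1) → E), IsGenericPoint z' →
        (BrodySpecial ∅ z' ↔ BrodySpecial ∅ y) ∧
        ∀ v w : ℕ, Algebra.trdeg ℂ F = v → Algebra.trdeg ℂ E = w →
          (Special ℂ F v (fun _ => False) → BrodySpecial ∅ y) →
          Special ℂ E w (fun _ => False) → BrodySpecial ∅ z') ∧
    -- `criterion`
    (∀ (L : Type) [Field L] [Algebra F L] (r : Fin N → L) (q₀ : Fin N),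
      aeval r (pderiv q₀ H) ≠ 0 →
      (∀ p, p ≠ q₀ → GenusOnePair H q₀ p ∨ GenusOnePair H p q₀) → ManyCurves H r) := by
  have _ : CharZero F := charZero_of_injective_algebraMap (algebraMap ℂ F).injective
  have hpoints : ∀ (L : Type) [Field L] [Algebra ℂ L] [Algebra F L] [IsScalarTower ℂ F L] (M' : ℕ)
      (y' : Fin (M' + 1) → L), IsGenericPoint y' → BrodySpecial ∅ y' →
      ∀ r : Fin N → L, aeval r H = 0 → ManyCurves H r →
      ∀ (E : Type) [Field E] [Algebra ℂ E] (_ : E →ₐ[ℂ] K) (n' : ℕ) (z' : Fin (n' + 1) → E),
        IsGenericPoint z' → BrodySpecial ∅ z' := by
    intro L _ _ _ _ M' y' hy' hB r hr hc E _ _ ι n' z' hz'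
    obtain ⟨ψ⟩ := embedding_of_point hy.2 hx.irreducible hx.generic hx.generates hy'.2 hB r hr hc
    exact brody_of_embedding (ψ.comp ι) z' hz'.1
  refine ⟨?_, hpoints, ?_, ?_⟩
  · intro hc A e t hA ht hAy
    obtain ⟨G, hG, hGz, h⟩ := brodySpecial_of_lift hy.2 hy.1 hz.2 hz.1 hA hAy hx.irreducible
      hx.generic hx.generates hc
    refine ⟨G, hG, hGz, ⟨fun h1 => lift_of_brodySpecial hA ht hAy hG hGz h1, ?_⟩⟩
    rintro ⟨f, hf, hfX, hfG, hfB⟩
    exact h f hf hfX hfG hfB
  · intro r hr hc E _ _ _ _ ι n' z' hz'
    have h1 : BrodySpecial ∅ y → BrodySpecial ∅ z' := fun hB =>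
      hpoints F M y hy hB r hr hc E (ι.restrictScalars ℂ) n' z' hz'
    refine ⟨⟨fun h => ?_, h1⟩, ?_⟩
    · obtain ⟨ψ⟩ := embedding_of_brody z' hz'.2 h
      exact brody_of_embedding (ψ.comp (IsScalarTower.toAlgHom ℂ F E)) y hy.1
    · intro v w hv hw hQ hS
      exact h1 (hQ (special_down hv hw (fun u hu => finite_of_basis hy.2 hu) hS))
  · intro L _ _ r q₀ hq hpair
    exact manyCurves_hub H q₀ hq hpair

end Pool.Agent.Results.MP_1209e6_ag.FibrationsByCurvesOfGenusOne
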