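import Pool.Agent.J4.H71.CP.Red

/-!
# Campana's conjecture is a question on smooth hypersurfaces

MP_1209e6_ag, Q1: a complex projective variety is special if and only if it is Brody-special.

Let `X = V(S)` be any projective variety in `P^n`, `n ≥ 1` (any dimension, any singularities, reducible
or not), given by forms of degree at most `d`, `d ≥ 3`, and let `v : P^n → P^N` be the Veronese
embedding of degree `d`. For all `D ≥ D₁(N)` there are quadratic forms `Q_t`, `t < N (2 N + 1)`, such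
that the hypersurface

`Y : ∑ t, Q_t(y) (y_0 + t y_1 + ⋯ + t^N y_N)^D = 0`

is smooth, contains `v(X)`, and has the following property. All special closed subvarieties of positive dimension of `Y`, and all Brody-special ones,
are contained in `v(X)`; they are the images of the special, respectively Brody-special, closed
subvarieties of `X`. In particular, if `X` is irreducible, then `X` is special (Brody-special) if and
only if `v(X)` is the greatest special (Brody-special) closed subvariety of `Y`.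

Consequently, for every infinite set of exponents `D`:

* the implication from (i) to (ii) in Q1 holds for all irreducible projective varieties if and only
  if, for all smooth hypersurfaces `Y` of this form which have a greatest special closed subvariety
  (of positive dimension), this subvariety is Brody-special;
* the implication from (ii) to (i) in Q1 holds for all irreducible projective varieties if and only
  if, for all smooth hypersurfaces `Y` of this form which have a greatest Brody-special closed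
  subvariety (of positive dimension), this subvariety is special.

So Q1 for all projective varieties is equivalent to a statement on smooth hypersurfaces: that their greatest special and their greatest Brody-special subvarieties are the same.

Conventions. An irreducible closed subset of `P^n` is given by its function field `L`, of
transcendence degree `w`, and its generic point `y` in homogeneous coordinates (`Variety`, `SubVar`); a
form `G` vanishes on it if and only if `G(y) = 0`. `Special ℂ L w (fun _ => False)`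
(`Pool/Agent/W602/GT/SpecDefs.lean`): the smooth projective models of `L` have no Bogomolov sheaves.
`BrodySpecial ∅ y` (`Pool/Agent/W602/GT/BroDefs.lean`): there are entire functions without common zeros
which define a holomorphic map to the variety with Zariski dense image. `SmoothForm`, `powerForm`,
`Monomials`, `veronese`: `Pool/Agent/N254/SQ/LocDefs.lean`.

The hypersurfaces `Y` are those of the starting result `MP_8d161d_ag.SmoothHypersurfacesSuffice`.
-/

set_option autoImplicit false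

namespace Pool.Agent.Results.MP_1209e6_ag.SmoothHypersurfacesSuffice

open MvPolynomial
open Pool.Agent.W602.GT (SubVar coords Special BrodySpecial)
open Pool.Agent.N254.SQ (IsForm SmoothForm powerForm Monomials veronese)
open Pool.Agent.J4.H71.CP (Variety Contains)

/-- The implication from (i) to (ii) in Q1, for all irreducible projective varieties. -/
def SpecialImpliesBrody : Prop :=
  ∀ (n : ℕ) (L : Type) [Field L] [Algebra ℂ L] (w : ℕ) (y : Fin (n + 1) → L), Variety L w y →
    Special ℂ L w (fun _ => False) → BrodySpecial ∅ y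

/-- The implication from (ii) to (i) in Q1, for all irreducible projective varieties. -/
def BrodyImpliesSpecial : Prop :=
  ∀ (n : ℕ) (L : Type) [Field L] [Algebra ℂ L] (w : ℕ) (y : Fin (n + 1) → L), Variety L w y →
    BrodySpecial ∅ y → Special ℂ L w (fun _ => False)

/-- The closed subvariety with generic point `y`, of positive dimension `w`, of the hypersurface
`A = 0` is special and contains all special closed subvarieties of positive dimension. -/
def GreatestSpecial {N : ℕ} (A : MvPolynomial (Fin (N + 1)) ℂ) (L : Type) [Field L] [Algebra ℂ L]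
    (w : ℕ) (y : Fin (N + 1) → L) : Prop :=
  1 ≤ w ∧ SubVar (fun _ : Unit => A) L w y ∧ Special ℂ L w (fun _ => False) ∧
    ∀ (L' : Type) [Field L'] [Algebra ℂ L'] (w' : ℕ) (y' : Fin (N + 1) → L'), 1 ≤ w' →
      SubVar (fun _ : Unit => A) L' w' y' → Special ℂ L' w' (fun _ => False) → Contains y y'

/-- The closed subvariety with generic point `y`, of positive dimension `w`, of the hypersurface
`A = 0` is Brody-special and contains all Brody-special closed subvarieties of positive dimension. -/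
def GreatestBrody {N : ℕ} (A : MvPolynomial (Fin (N + 1)) ℂ) (L : Type) [Field L] [Algebra ℂ L]
    (w : ℕ) (y : Fin (N + 1) → L) : Prop :=
  1 ≤ w ∧ SubVar (fun _ : Unit => A) L w y ∧ BrodySpecial ∅ y ∧
    ∀ (L' : Type) [Field L'] [Algebra ℂ L'] (w' : ℕ) (y' : Fin (N + 1) → L'), 1 ≤ w' →
      SubVar (fun _ : Unit => A) L' w' y' → BrodySpecial ∅ y' → Contains y y'

section proof

open Pool.Agent.N254.SQ (Eqs Mon ver Good powerSum pull pull_hom aeval_pull reduce leaves4 main5
  t_ext aeval_zero_of sub_ver GT_pos)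
open Pool.Agent.J4.H71.CP (main_down brody_congr brody_zero special_zero)

theorem sub_unit {N : ℕ} {A : MvPolynomial (Fin (N + 1)) ℂ} {L : Type} [Field L] [Algebra ℂ L]
    {w : ℕ} {y : Fin (N + 1) → L} : SubVar (fun _ : Unit => A) L w y ↔
    SubVar (fun p : ({A} : Set _) => (p : MvPolynomial (Fin (N + 1)) ℂ)) L w y := by
  constructor
  · intro hy
    refine ⟨hy.ne, fun p => ?_, hy.gen, hy.dim⟩
    obtain ⟨p, hp⟩ := p
    rw [Set.mem_singleton_iff] at hp
    subst hp
    exact hy.mem ()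
  · intro hy
    exact ⟨hy.ne, fun _ => hy.mem ⟨A, rfl⟩, hy.gen, hy.dim⟩

/-- the construction over the complex numbers -/
theorem cons : ∃ D₁ : ℕ → ℕ,
    ∀ n d : ℕ, 1 ≤ n → 3 ≤ d → ∃ (N : ℕ) (m : Fin (N + 1) → Fin (n + 1) → ℕ),
      Mon n N d m ∧ ∀ D, D₁ N ≤ D →
        ∀ S : Set (MvPolynomial (Fin (n + 1)) ℂ), (∀ p ∈ S, ∃ e ≤ d, p.IsHomogeneous e) →
        ∃ Q : Fin (N * (2 * N + 1)) → MvPolynomial (Fin (N + 1)) ℂ,
          (∀ t, (Q t).IsHomogeneous 2) ∧ SmoothForm (powerForm D Q) ∧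
          Good n N d m S (powerForm D Q) := by
  obtain ⟨D₁, H⟩ := main5 leaves4 t_ext
  refine ⟨D₁, fun n d hn hd => ?_⟩
  obtain ⟨N, m, hm, -, H2⟩ := H n d hn hd
  refine ⟨N, m, hm, fun D hD S hS => ?_⟩
  obtain ⟨Q, hQ, hsm, -, hg⟩ := H2 D hD ℂ (RingHom.id ℂ) S hS
  have e1 : map (RingHom.id ℂ) '' S = S := by
    have : (fun p : MvPolynomial (Fin (n + 1)) ℂ => map (RingHom.id ℂ) p) = id := by
      funext p
      exact map_id p
    change (fun p : MvPolynomial (Fin (n + 1)) ℂ => map (RingHom.id ℂ) p) '' S = S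
    rw [this, Set.image_id]
  rw [e1, map_id] at hg
  refine ⟨Q, hQ, ?_, hg⟩
  intro y hy
  obtain ⟨j, hj⟩ := hsm ℂ (RingHom.id ℂ) y hy
  rw [map_id] at hj
  exact ⟨j, hj⟩

/-- finitely many forms with the same zeros -/
theorem fin_forms {n d : ℕ} (S : Set (MvPolynomial (Fin (n + 1)) ℂ))
    (hS : ∀ p ∈ S, ∃ e ≤ d, p.IsHomogeneous e) :
    ∃ T : Finset (MvPolynomial (Fin (n + 1)) ℂ), (T : Set _) ⊆ S ∧
      (∀ p ∈ T, ∃ e ≤ d, p.IsHomogeneous e) ∧
      ∀ (Ω : Type) [Field Ω] [Algebra ℂ Ω] (x : Fin (n + 1) → Ω),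
        (∀ p ∈ T, aeval x p = 0) → ∀ p ∈ S, aeval x p = 0 := by
  obtain ⟨T, hT, hTS⟩ := reduce S
  refine ⟨T, hT, fun p hp => hS p (hT hp), fun Ω _ _ x hx p hp => ?_⟩
  have h1 := hTS Ω (algebraMap ℂ Ω) x (fun p hp => by
    rw [eval_map]
    exact hx p hp) p hp
  rw [eval_map] at h1
  exact h1

/-- `v(X)` contains a subvariety `v(Z)` with `Z` in `X`, for an irreducible `X` with equations `T` -/
theorem contains_of {n N d : ℕ} {m : Fin (N + 1) → Fin (n + 1) → ℕ} (hm : Mon n N d m)
    {L L' : Type} [Field L] [Algebra ℂ L] [Field L'] [Algebra ℂ L'] {y : Fin (n + 1) → L}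
    {T : Finset (MvPolynomial (Fin (n + 1)) ℂ)}
    (hT : ∀ (Ω : Type) [Field Ω] [Algebra ℂ Ω] (x : Fin (n + 1) → Ω),
        (∀ p ∈ T, aeval x p = 0) → ∀ p ∈ Eqs y, aeval x p = 0)
    {x : Fin (n + 1) → L'} {c : L'} (hc : c ≠ 0) (hx : ∀ p ∈ T, aeval x p = 0) :
    Contains (ver m y) (c • ver m x) := by
  intro G hG h0
  rw [aeval_zero_of hG hc, ← aeval_pull]
  obtain ⟨e, he⟩ := hG
  refine hT L' x hx _ ⟨⟨_, pull_hom hm he⟩, ?_⟩
  rw [aeval_pull]
  exact h0

/-- the hypersurface of an irreducible variety of positive dimension -/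
theorem of_variety {D₁ : ℕ → ℕ}
    (H : ∀ n d : ℕ, 1 ≤ n → 3 ≤ d → ∃ (N : ℕ) (m : Fin (N + 1) → Fin (n + 1) → ℕ),
      Mon n N d m ∧ ∀ D, D₁ N ≤ D →
        ∀ S : Set (MvPolynomial (Fin (n + 1)) ℂ), (∀ p ∈ S, ∃ e ≤ d, p.IsHomogeneous e) →
        ∃ Q : Fin (N * (2 * N + 1)) → MvPolynomial (Fin (N + 1)) ℂ,
          (∀ t, (Q t).IsHomogeneous 2) ∧ SmoothForm (powerForm D Q) ∧
          Good n N d m S (powerForm D Q))
    {E : Set ℕ} (hE : E.Infinite) {n : ℕ} {L : Type} [Field L] [Algebra ℂ L] {w : ℕ}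
    {y : Fin (n + 1) → L} (hy : Variety L w y) (hw : 1 ≤ w) :
    ∃ (N : ℕ) (D : ℕ) (Q : Fin (N * (2 * N + 1)) → MvPolynomial (Fin (N + 1)) ℂ)
      (y' : Fin (N + 1) → L), D ∈ E ∧ D₁ N ≤ D ∧ (∀ t, (Q t).IsHomogeneous 2) ∧
      SmoothForm (powerForm D Q) ∧ SubVar (fun _ : Unit => powerForm D Q) L w y' ∧
      ∀ (L' : Type) [Field L'] [Algebra ℂ L'] (w' : ℕ) (z : Fin (N + 1) → L'), 1 ≤ w' →
        SubVar (fun _ : Unit => powerForm D Q) L' w' z →
        (Special ℂ L' w' (fun _ => False) ∨ BrodySpecial ∅ z) → Contains y' z := by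
  have hn : 1 ≤ n := GT_pos y hw hy.gen hy.dim
  obtain ⟨T, hT, hTS⟩ := reduce (Eqs y)
  obtain ⟨d, hd3, hd⟩ : ∃ d, 3 ≤ d ∧ ∀ p ∈ T, ∃ e ≤ d, p.IsHomogeneous e := by
    choose e he using fun p : T => (hT p.2).1
    exact ⟨max 3 (Finset.univ.sup e), le_max_left _ _, fun p hp => ⟨e ⟨p, hp⟩,
      (Finset.le_sup (Finset.mem_univ _)).trans (le_max_right _ _), he ⟨p, hp⟩⟩⟩
  obtain ⟨N, m, hm, H2⟩ := H n d hn hd3
  obtain ⟨D, hDE, hD⟩ := hE.exists_gt (D₁ N)
  obtain ⟨Q, hQ, hsm, hg⟩ := H2 D hD.le T hd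
  have hT2 : ∀ (Ω : Type) [Field Ω] [Algebra ℂ Ω] (x : Fin (n + 1) → Ω),
      (∀ p ∈ T, aeval x p = 0) → ∀ p ∈ Eqs y, aeval x p = 0 := by
    intro Ω _ _ x hx p hp
    have h1 := hTS Ω (algebraMap ℂ Ω) x (fun p hp => by
      rw [eval_map]
      exact hx p hp) p hp
    rw [eval_map] at h1
    exact h1
  refine ⟨N, D, Q, ver m y, hDE, hD.le, hQ, hsm, ?_, ?_⟩
  · exact sub_unit.2 (sub_ver hg ⟨hy.ne, fun p => (hT p.2).2, hy.gen, hy.dim⟩)
  · intro L' _ _ w' z hw' hz h
    obtain ⟨x, c, hc, hzx, -, -, hxT⟩ := main_down hd hg hw' (sub_unit.1 hz) h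
    rw [hzx]
    exact contains_of hm hT2 hc hxT

end proof

theorem result : ∃ D₁ : ℕ → ℕ,
    (∀ n d : ℕ, 1 ≤ n → 3 ≤ d → ∃ (N : ℕ) (m : Fin (N + 1) → Fin (n + 1) → ℕ),
      Monomials n N d m ∧ ∀ D, D₁ N ≤ D →
        ∀ S : Set (MvPolynomial (Fin (n + 1)) ℂ), (∀ p ∈ S, ∃ e ≤ d, p.IsHomogeneous e) →
        ∃ Q : Fin (N * (2 * N + 1)) → MvPolynomial (Fin (N + 1)) ℂ,
          (∀ t, (Q t).IsHomogeneous 2) ∧ SmoothForm (powerForm D Q) ∧
          -- the subvarieties `Z` of `X` and the subvarieties `v(Z)` of `Y`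
          (∀ (L : Type) [Field L] [Algebra ℂ L] (w : ℕ) (x : Fin (n + 1) → L),
            SubVar (fun p : S => (p : MvPolynomial (Fin (n + 1)) ℂ)) L w x →
            SubVar (fun _ : Unit => powerForm D Q) L w (veronese m x) ∧
            (BrodySpecial ∅ (veronese m x) ↔ BrodySpecial ∅ x)) ∧
          -- all special and all Brody-special subvarieties of positive dimension of `Y` are of
          -- this kind
          (∀ (L : Type) [Field L] [Algebra ℂ L] (w : ℕ) (y : Fin (N + 1) → L), 1 ≤ w →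
            SubVar (fun _ : Unit => powerForm D Q) L w y →
            (Special ℂ L w (fun _ => False) ∨ BrodySpecial ∅ y) →
            ∃ (x : Fin (n + 1) → L) (c : L), c ≠ 0 ∧ y = c • veronese m x ∧
              SubVar (fun p : S => (p : MvPolynomial (Fin (n + 1)) ℂ)) L w x)) ∧
    ∀ E : Set ℕ, E.Infinite →
      (SpecialImpliesBrody ↔
        ∀ (N D : ℕ) (Q : Fin (N * (2 * N + 1)) → MvPolynomial (Fin (N + 1)) ℂ), D ∈ E →
          D₁ N ≤ D → (∀ t, (Q t).IsHomogeneous 2) → SmoothForm (powerForm D Q) →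
          ∀ (L : Type) [Field L] [Algebra ℂ L] (w : ℕ) (y : Fin (N + 1) → L),
            GreatestSpecial (powerForm D Q) L w y → BrodySpecial ∅ y) ∧
      (BrodyImpliesSpecial ↔
        ∀ (N D : ℕ) (Q : Fin (N * (2 * N + 1)) → MvPolynomial (Fin (N + 1)) ℂ), D ∈ E →
          D₁ N ≤ D → (∀ t, (Q t).IsHomogeneous 2) → SmoothForm (powerForm D Q) →
          ∀ (L : Type) [Field L] [Algebra ℂ L] (w : ℕ) (y : Fin (N + 1) → L),
            GreatestBrody (powerForm D Q) L w y → Special ℂ L w (fun _ => False)) := by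
  obtain ⟨D₁, H⟩ := cons
  refine ⟨D₁, ?_, fun E hE => ⟨⟨?_, ?_⟩, ?_, ?_⟩⟩
  · intro n d hn hd
    obtain ⟨N, m, hm, H2⟩ := H n d hn hd
    refine ⟨N, m, ⟨hm.deg, hm.inj, hm.surj⟩, fun D hD S hS => ?_⟩
    obtain ⟨T, hTS, hT, hT2⟩ := fin_forms S hS
    obtain ⟨Q, hQ, hsm, hg⟩ := H2 D hD (T : Set (MvPolynomial (Fin (n + 1)) ℂ))
      (fun p hp => hT p hp)
    refine ⟨Q, hQ, hsm, ?_, ?_⟩
    · intro L _ _ w x hx
      have h1 := Pool.Agent.N254.SQ.sub_ver hg (w := w) (y := x)
        ⟨hx.ne, fun p => hx.mem ⟨p, hTS p.2⟩, hx.gen, hx.dim⟩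
      exact ⟨sub_unit.2 h1, fun h => Pool.Agent.J4.H71.CP.brody_congr h1.gen hx.ne h,
        fun h => Pool.Agent.J4.H71.CP.brody_congr hx.gen h1.ne h⟩
    · intro L _ _ w y hw hy h
      obtain ⟨x, c, hc, hyx, hx0, hx1, hxT⟩ :=
        Pool.Agent.J4.H71.CP.main_down hT hg hw (sub_unit.1 hy) h
      exact ⟨x, c, hc, hyx, hx0, fun p => hT2 L x hxT p p.2, hx1, hy.dim⟩
  · intro h N D Q _ _ _ _ L _ _ w y hy
    exact h N L w y ⟨hy.2.1.ne, hy.2.1.gen, hy.2.1.dim⟩ hy.2.2.1
  · intro h n L _ _ w y hy hs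
    rcases Nat.eq_zero_or_pos w with hw | hw
    · subst hw
      exact Pool.Agent.J4.H71.CP.brody_zero hy.ne hy.dim
    · obtain ⟨N, D, Q, y', hDE, hD, hQ, hsm, hy', hmax⟩ := of_variety H hE hy hw
      refine Pool.Agent.J4.H71.CP.brody_congr hy'.gen hy.ne
        (h N D Q hDE hD hQ hsm L w y' ⟨hw, hy', hs, ?_⟩)
      intro L' _ _ w' z hw' hz hzs
      exact hmax L' w' z hw' hz (Or.inl hzs)
  · intro h N D Q _ _ _ _ L _ _ w y hy
    exact h N L w y ⟨hy.2.1.ne, hy.2.1.gen, hy.2.1.dim⟩ hy.2.2.1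
  · intro h n L _ _ w y hy hb
    rcases Nat.eq_zero_or_pos w with hw | hw
    · subst hw
      exact Pool.Agent.J4.H71.CP.special_zero hy.dim
    · obtain ⟨N, D, Q, y', hDE, hD, hQ, hsm, hy', hmax⟩ := of_variety H hE hy hw
      refine h N D Q hDE hD hQ hsm L w y' ⟨hw, hy',
        Pool.Agent.J4.H71.CP.brody_congr hy.gen hy'.ne hb, ?_⟩
      intro L' _ _ w' z hw' hz hzs
      exact hmax L' w' z hw' hz (Or.inr hzs)

end Pool.Agent.Results.MP_1209e6_ag.SmoothHypersurfacesSuffice
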